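import Pool.Agent.Q280.GM.Lim

set_option autoImplicit false

open MeasureTheory Real Metric

namespace Pool.Agent.Results.MP_ba1a3e_pr.DimensionFreeComparison

/-- The density of the Gaussian mixture `π * N(0, I_d)`. -/
noncomputable def mixDensity {d : ℕ} (π₀ : Measure (EuclideanSpace ℝ (Fin d)))
    (x : EuclideanSpace ℝ (Fin d)) : ℝ :=
  ∫ z, (2 * π) ^ (-(d : ℝ) / 2) * exp (-‖x - z‖ ^ 2 / 2) ∂π₀

/-- The squared Hellinger distance `∫ (√f - √g)²`. -/
noncomputable def hellingerSq {d : ℕ} (f g : EuclideanSpace ℝ (Fin d) → ℝ) : ℝ :=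
  ∫ x, (√(f x) - √(g x)) ^ 2

/-- The Kullback-Leibler divergence `∫ f log (f / g)`. -/
noncomputable def klDivergence {d : ℕ} (f g : EuclideanSpace ℝ (Fin d) → ℝ) : ℝ :=
  ∫ x, f x * log (f x / g x)

/-- The chi-squared divergence `∫ (f - g)² / g`. -/
noncomputable def chiSq {d : ℕ} (f g : EuclideanSpace ℝ (Fin d) → ℝ) : ℝ :=
  ∫ x, (f x - g x) ^ 2 / g x

/-- For every `M > 0` there is a constant `C` such that in every dimension `d` and for all mixing
distributions `π₀`, `η` supported in the ball of radius `M` both the chi-squared divergence and the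
Kullback-Leibler divergence of the Gaussian mixtures are at most `C` times their squared Hellinger
distance; the integrals which define the three quantities converge. -/
theorem result (M : ℝ) (hM : 0 < M) : ∃ C : ℝ, ∀ (d : ℕ)
    (π₀ η : Measure (EuclideanSpace ℝ (Fin d))), IsProbabilityMeasure π₀ →
    IsProbabilityMeasure η → π₀ (closedBall 0 M)ᶜ = 0 → η (closedBall 0 M)ᶜ = 0 →
    (Integrable (fun x => (mixDensity π₀ x - mixDensity η x) ^ 2 / mixDensity η x) ∧
      Integrable (fun x => mixDensity π₀ x * log (mixDensity π₀ x / mixDensity η x)) ∧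
      Integrable (fun x => (√(mixDensity π₀ x) - √(mixDensity η x)) ^ 2)) ∧
    chiSq (mixDensity π₀) (mixDensity η) ≤
      C * hellingerSq (mixDensity π₀) (mixDensity η) ∧
    klDivergence (mixDensity π₀) (mixDensity η) ≤
      C * hellingerSq (mixDensity π₀) (mixDensity η) := by
  refine ⟨Pool.Agent.Q280.GM.CM M, ?_⟩
  intro d π₀ η h1 h2 h3 h4
  have ae : ∀ {μ : Measure (EuclideanSpace ℝ (Fin d))}, μ (closedBall 0 M)ᶜ = 0 →
      ∀ᵐ z ∂μ, ‖z‖ ≤ M := by
    intro μ h
    rw [ae_iff]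
    convert h using 2
    ext z
    simp
  have a1 := ae h3
  have a2 := ae h4
  have e : ∀ μ : Measure (EuclideanSpace ℝ (Fin d)),
      mixDensity μ = Pool.Agent.Q280.GM.mix μ := fun μ => rfl
  obtain ⟨c1, c2⟩ := Pool.Agent.Q280.GM.chi_bound hM.le a1 a2
  obtain ⟨k1, k2⟩ := Pool.Agent.Q280.GM.kl_bound hM.le a1 a2
  obtain ⟨fI, -⟩ := Pool.Agent.Q280.GM.mix_int hM.le a1
  obtain ⟨gI, -⟩ := Pool.Agent.Q280.GM.mix_int hM.le a2
  have mf := Pool.Agent.Q280.GM.measurable_mix hM.le a1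
  have mg := Pool.Agent.Q280.GM.measurable_mix hM.le a2
  rw [e, e]
  refine ⟨⟨c1, k1, ?_⟩, c2, k2.trans c2⟩
  refine (fI.add gI).mono' ((mf.sqrt.sub mg.sqrt).pow_const 2).aestronglyMeasurable
    (Filter.Eventually.of_forall fun x => ?_)
  rw [norm_of_nonneg (sq_nonneg _)]
  exact Pool.Agent.Q280.GM.helI_le (Pool.Agent.Q280.GM.mix_pos a1 x).le
    (Pool.Agent.Q280.GM.mix_pos a2 x).le

end Pool.Agent.Results.MP_ba1a3e_pr.DimensionFreeComparison
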